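import Pool.Agent.Helper82.LP.Explicit

/-!
# Leopoldt's conjecture at ALL primes `p ≤ Y` for all but `C + r ∑_{p ≤ Y} p` members of explicit families

Let `P_1, …, P_r` be distinct monic polynomials with integral coefficients, each of them linear or quadratic without
real roots, and `f_t = (X - t) P_1 ⋯ P_r - 1`, a polynomial of degree `n = 1 + ∑ deg P_i` with the integral
parameter `t`.

**Theorem.** There is a constant `C` such that for all `Y` and for all but at most `C + r ∑_{p ≤ Y} p` integers `t`
(of any size): `f_t` is irreducible over `ℚ`, the field `K_t` generated by a root of it has exactly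
`1 + #{linear P_i}` real and `#{quadratic P_i}` complex places, and Leopoldt's conjecture holds for `K_t` and ALL
the prime numbers `p ≤ Y` at once.

As `∑_{p ≤ √N} p = O (N / log N)`, for every `ε > 0` and all large `N` the same holds for all the prime numbers
`p ≤ √N` for all but at most `ε N` of the integers `t`, `|t| ≤ N`.

In the starting results on Leopoldt's conjecture (`ExplicitFamilies`, `EverySignature`, `AlmostAllMembers`,
`ZpSpecialisation`) the prime `p` is fixed and there is no bound for the number of the exceptions `t`, and so nothing
on all the primes of an interval which grows with `t`. Here, for all `p` outside a finite set, the number of exceptions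
is bounded by `r p`, and the primes which ramify in the fields are included.

Proof. Let `B, P_1, …, P_r` be monic nonconstant, `H = P_1 ⋯ P_r`, `f_t = (B + t) H - 1`, `n = deg f_t` and
`p ≥ max (5, 3 n)` a prime such that `H` is separable modulo `p`. By `Pool.Agent.Helper82.LP.fails_encard` there are at
most `r p` integers `t` such that Leopoldt's conjecture at `p` fails for some `K = ℚ(θ)`, `f_t(θ) = 0`, of degree `n` and
of unit rank `r`. Indeed let `t = t₁ + p s` be in a class modulo `p`, `F = f_{t₁}`, so that `f_t = F + p s H`. If the
relation `∑ w_i log P_i(θ) = 0` holds in `K_t ⊗ ℚ_p`, then for every `k` the coefficients of `∑ w_i E_i` are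
divisible by `p ^ (k - 1)`, where `P_i ^ (M p ^ k) = 1 + p ^ (k + 1) E_i` modulo `F + p s H`, and the `E_i` are
polynomials in `s` and `Y`. Let `ρ` be the radical of `F` modulo `p`. Modulo `p ^ 2` the `E_i` are linear in `s`: the
part divisible by `ρ` is constant modulo `p`, and the remainder modulo `ρ` is `p (a_i + s b_i)`; the vectors formed
by the constant parts and the slopes `b_i` are linearly independent modulo `p`, since the `P_i' / P_i` are
independent modulo `F`. So certain `r × r` minors, divided by the right power of `p`, are polynomials in `s` with
integral coefficients whose reduction modulo `p` is nonzero and of degree at most `r`. By an argument of Strassmann's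
type they cannot be divisible by high powers of `p` at `r + 1` different integers `s`. The finitely many primes which
are excluded here are treated by `ExplicitFamilies`.
-/

set_option autoImplicit false

namespace Pool.Agent.Results.MP_5f2860_nt.AllPrimesAtOnce

open Polynomial NumberField IntermediateField
open Pool.Agent.W254.LF (LeopoldtAt)

/-- **Main result.** -/
theorem result (r : ℕ) (P : Fin r → ℤ[X]) (hmon : ∀ i, (P i).Monic) (hinj : Function.Injective P)
    (hdeg : ∀ i, (P i).natDegree = 1 ∨
      ((P i).natDegree = 2 ∧ ∀ x : ℝ, ((P i).map (Int.castRingHom ℝ)).eval x ≠ 0)) :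
    ∃ C₀ : ℕ, ∀ Y : ℕ,
      {t : ℤ | ¬ (Irreducible (((X - C t) * ∏ i, P i - 1 : ℤ[X]).map (Int.castRingHom ℚ)) ∧
        ∀ (K : Type) [Field K] [NumberField K] (θ : K),
          aeval θ ((X - C t) * ∏ i, P i - 1 : ℤ[X]) = 0 → ℚ⟮θ⟯ = ⊤ →
          InfinitePlace.nrRealPlaces K =
            1 + (Finset.univ.filter fun i => (P i).natDegree = 1).card ∧
          InfinitePlace.nrComplexPlaces K =
            (Finset.univ.filter fun i => (P i).natDegree = 2).card ∧
          ∀ (p : ℕ) [Fact p.Prime], p ≤ Y → LeopoldtAt K p)}.encard ≤
        ((C₀ + r * ∑ p ∈ (Finset.range (Y + 1)).filter Nat.Prime, p : ℕ) : ℕ∞) :=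
  Pool.Agent.Helper82.LP.explicit_all r P hmon hinj hdeg

end Pool.Agent.Results.MP_5f2860_nt.AllPrimesAtOnce
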