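import Pool.Agent.Helper82.LP.Box5

/-!
# Leopoldt's conjecture at almost all primes `p ≤ c N` for 100 % of the fields of height `N`, in every signature

For integers `a_1, …, a_{r₁}`, `b_1, c_1, …, b_{r₂}, c_{r₂}`, `c_k > 0`, let

  `f = ∏ (Y - a_i) ∏ ((Y - b_k)² + c_k) - 1`   (`poly x`, `x = (a, b, c)`),

a polynomial of degree `n = r₁ + 2 r₂` which depends on `n` free parameters, and let `K = ℚ[Y]/(f)`. Let
`Box r₁ r₂ N` be the box `|a_i| ≤ N, |b_k| ≤ N, 1 ≤ c_k ≤ N`.

**Theorem.** Let `r₁ + r₂ ≥ 1` and `ε, δ > 0`. There is `c > 0` such that for all large `N` and for all but the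
proportion `ε` of the `x` in the box: `f` is irreducible, `K` has exactly `r₁` real and `r₂` complex places and
Leopoldt's conjecture holds for `K` and all but at most `δ π(c N)` of the prime numbers `p ≤ c N`.

In `AlmostAllMembers` (starting library) the prime `p` is fixed and the proportion of the failures tends to zero
without any rate; hence nothing follows on the primes of an interval which grows with `N`.

Proof. For a prime `p`, `max (5, 3 n) ≤ p ≤ N`, the proportion of the failures at `p` in the box is at most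
`(r₁ + r₂)² p / N + 64 (r₁ + r₂)² (r₁ + r₂ + 1)² / p²` (`Pool.Agent.Helper82.LP.prime_bound`, which is also behind
`EverySignatureAllPrimes`). Sum over `p ≤ c N` and use Markov's inequality; the finitely many small primes are treated
by `AlmostAllMembers`.
-/

set_option autoImplicit false

namespace Pool.Agent.Results.MP_5f2860_nt.AlmostAllPrimesUpToN

open Polynomial NumberField
open Pool.Agent.H637R2.Leo (Leopoldt)
open Pool.Agent.Results.MP_5f2860_nt.AlmostAllMembers (Ind poly Box)

/-- **Main result.** -/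
theorem result (r₁ r₂ : ℕ) (hr : 1 ≤ r₁ + r₂) (ε δ : ℝ) (hε : 0 < ε) (hδ : 0 < δ) :
    ∃ c : ℝ, 0 < c ∧ ∃ N₀ : ℕ, ∀ N : ℕ, N₀ ≤ N →
      ({x : Ind r₁ r₂ → ℤ | x ∈ Box r₁ r₂ N ∧ ¬ (Irreducible (poly x) ∧
        ∀ (K : Type) [Field K] [NumberField K] (θ : K), aeval θ (poly x) = 0 →
          IntermediateField.adjoin ℚ {θ} = ⊤ →
          InfinitePlace.nrRealPlaces K = r₁ ∧ InfinitePlace.nrComplexPlaces K = r₂ ∧
            ({p : ℕ | p ≤ ⌊c * N⌋₊ ∧ ∃ h : p.Prime, ¬ @Leopoldt K _ _ p ⟨h⟩}.ncard : ℝ) ≤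
              δ * Nat.primeCounting ⌊c * N⌋₊)}.ncard : ℝ) ≤
        ε * (Box r₁ r₂ N).ncard :=
  Pool.Agent.Helper82.LP.box_most hr ε δ hε hδ

end Pool.Agent.Results.MP_5f2860_nt.AlmostAllPrimesUpToN
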