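import Pool.Agent.Helper82.LP.Box4

/-!
# Leopoldt's conjecture at ALL primes `p ≤ √N` for 100 % of the fields of height `N`, in every signature

For integers `a_1, …, a_{r₁}`, `b_1, c_1, …, b_{r₂}, c_{r₂}`, `c_k > 0`, let

  `f = ∏ (Y - a_i) ∏ ((Y - b_k)² + c_k) - 1`   (`poly x`, `x = (a, b, c)`),

a polynomial of degree `n = r₁ + 2 r₂` which depends on `n` free parameters, and let `K = ℚ[Y]/(f)`. The
values of the factors at the root are `r₁ + r₂` units. Let `Box r₁ r₂ N` be the box `|a_i| ≤ N, |b_k| ≤ N,
1 ≤ c_k ≤ N`.

**Theorem.** Let `r₁ + r₂ ≥ 1`. For every `ε > 0` and all large `N`, for all but the proportion `ε` of the `x` in the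
box: `f` is irreducible, `K` has exactly `r₁` real and `r₂` complex places and Leopoldt's conjecture holds for `K` and
ALL the prime numbers `p ≤ √N`.

In `AlmostAllMembers` (starting library) the prime `p` is fixed and the proportion of the failures tends to zero
without any rate; hence nothing follows on all the primes of an interval which grows with `N`.

Proof. For a prime `p`, `max (5, 3 n) ≤ p ≤ N`, the proportion of the failures at `p` in the box is at most
`(r₁ + r₂)² p / N + 64 (r₁ + r₂)² (r₁ + r₂ + 1)² / p²` (`Pool.Agent.Helper82.LP.prime_bound`): fix all the parameters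
except for `a_j` or `c_j` of one factor such that the product of the other factors is separable modulo `p`; by
`Pool.Agent.Helper82.LP.fails_encard` there are at most `(r₁ + r₂ - 1) p` failures on this line. If there is no such
factor then two parameters, belonging to different factors, are restricted to few classes modulo `p` by the others. Sum
over `p`; the finitely many small primes are treated by `AlmostAllMembers`.
-/

set_option autoImplicit false

namespace Pool.Agent.Results.MP_5f2860_nt.EverySignatureAllPrimes

open Polynomial NumberField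
open Pool.Agent.H637R2.Leo (Leopoldt)
open Pool.Agent.Results.MP_5f2860_nt.AlmostAllMembers (Ind poly Box)

/-- **Main result.** -/
theorem result (r₁ r₂ : ℕ) (hr : 1 ≤ r₁ + r₂) (ε : ℝ) (hε : 0 < ε) : ∃ N₀ : ℕ, ∀ N : ℕ, N₀ ≤ N →
    ({x : Ind r₁ r₂ → ℤ | x ∈ Box r₁ r₂ N ∧ ¬ (Irreducible (poly x) ∧
      ∀ (K : Type) [Field K] [NumberField K] (θ : K), aeval θ (poly x) = 0 →
        IntermediateField.adjoin ℚ {θ} = ⊤ →
        InfinitePlace.nrRealPlaces K = r₁ ∧ InfinitePlace.nrComplexPlaces K = r₂ ∧
          ∀ (p : ℕ) [Fact p.Prime], p ^ 2 ≤ N → Leopoldt K p)}.ncard : ℝ) ≤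
      ε * (Box r₁ r₂ N).ncard :=
  Pool.Agent.Helper82.LP.box_all hr ε hε

end Pool.Agent.Results.MP_5f2860_nt.EverySignatureAllPrimes
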