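import Pool.Agent.Helper82.LP.G5

/-!
# Specialisation of units over `ℤ_p`: at most `r p` exceptions, uniformly in `p`

**Theorem.** Let `f ∈ ℤ[T][Y]` be monic in `Y` and separable over `ℚ(T)`, and let `u_1, …, u_r` be units of
`A = ℤ[T][Y]/(f)` which are multiplicatively independent modulo constants: if `∏ u_i ^ c_i` is integral over `ℤ`
then `c = 0`. There is a polynomial `μ ∈ ℤ[T]`, `μ ≠ 0`, such that for ALL prime numbers `p ≥ max (5, 3 deg f)` there
are at most `r p` integers `t`, of any size, with `p ∤ μ(t)` for which the following fails: if `K = ℚ(θ)` is a number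
field of degree `deg f` and `φ : A → 𝓞 K` is the specialisation `T ↦ t`, `Y ↦ θ`, then the units `φ(u_i)` are
independent over `ℤ_p` in the product of the completions of `K` above `p`; so if `r` is the unit rank of `K` then
Leopoldt's conjecture holds for `K` and `p`.

The starting theorem `ZpSpecialisation` is for one prime `p`: the set of the exceptions `t` is finite, without any bound
(it comes from the zeros of power series obtained by a contradiction). Here the number of exceptions is at most `r p`,
with the restriction to `p ∤ μ(t)`; in particular for all but `r ∑_{p ≤ Y} p` integers `t` the independence holds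
for all the primes `p ≤ Y`, `p ≥ max (5, 3 deg f)`, which do not divide `μ(t)`, at once. The primes which ramify in
the fields are included.

Proof. Let `δ = f_Y ∂_T - f_T ∂_Y` and `w_i = 1 / u_i`; `μ` is a minor of the matrix of the coefficients of the
`w_i δ u_i` modulo `f`. It does not vanish: by Puiseux expansions at infinity the logarithmic derivatives of the `u_i`
are, up to the factor `-1 / e T`, congruent to the orders at infinity of the `u_i`, and the matrix of these orders has
rank `r` (library file `H33R4.RANKI`), so the logarithmic derivatives are independent over `ℚ(T)`. If `p ∤ μ(t₁)` then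
for `t = t₁ + p s` the expansion `u_i ^ (M p ^ k) = 1 + p ^ (k + 1) E_i` modulo `f(t₁ + p s, Y)` has the property that
modulo `p²` the `E_i` are linear in `s`; let `ρ` be the radical of `f(t₁, Y)` modulo `p`. The part of `E_i` divisible by
`ρ` is constant modulo `p`, the remainder modulo `ρ` is `p (a_i + s b_i)`, and the vectors formed by the constant parts
and the slopes `b_i` are independent modulo `p` as the `w_i δ u_i` are independent modulo `(p, f(t₁, Y))`. So certain
minors, divided by a power of `p`, are integral polynomials in `s` with a nonzero reduction modulo `p` of degree at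
most `r`, and an argument of Strassmann's type gives at most `r` exceptions in the class.
-/

set_option autoImplicit false

namespace Pool.Agent.Results.MP_5f2860_nt.UniformSpecialisation

open Polynomial NumberField
open Pool.Agent.H637R2.Leo (Leopoldt)
open Pool.Agent.H33R4 (PIndep)

/-- **Main result.** -/
theorem result (f : ℤ[X][X]) (hf : f.Monic)
    (hsep : (f.map (algebraMap ℤ[X] (FractionRing ℤ[X]))).Separable)
    (r : ℕ) (u : Fin r → (AdjoinRoot f)ˣ)
    (hind : ∀ c : Fin r → ℤ,
      IsIntegral ℤ ((∏ i, u i ^ c i : (AdjoinRoot f)ˣ) : AdjoinRoot f) → c = 0) :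
    ∃ μ : ℤ[X], μ ≠ 0 ∧ ∀ (p : ℕ) [Fact p.Prime], 5 ≤ p → 3 * f.natDegree ≤ p →
      {t : ℤ | ¬ (p : ℤ) ∣ μ.eval t ∧
        ∃ (K : Type) (_ : Field K) (_ : NumberField K) (φ : AdjoinRoot f →+* 𝓞 K),
          φ (AdjoinRoot.of f X) = t ∧ Module.finrank ℚ K = f.natDegree ∧
          IntermediateField.adjoin ℚ {((φ (AdjoinRoot.root f) : 𝓞 K) : K)} = ⊤ ∧
          ¬ (PIndep K p (fun i => Units.map (φ : AdjoinRoot f →* 𝓞 K) (u i)) ∧
            (Units.rank K = r → Leopoldt K p))}.encard ≤ r * p := by
  obtain ⟨μ, h1, h2⟩ := Pool.Agent.Helper82.LP.uniform_spec hf hsep u hind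
  refine ⟨μ, h1, fun p _ hp5 hn => (Set.encard_le_encard ?_).trans (h2 p hp5 hn)⟩
  rintro t ⟨ht, K, _, _, φ, hφ, hK, hgen, hnot⟩
  refine ⟨ht, K, _, _, φ, hφ, hK, hgen, fun hP => hnot ⟨hP, fun hr => ?_⟩⟩
  exact Pool.Agent.H33R4.PB.leopoldt_of hr p _ hP

end Pool.Agent.Results.MP_5f2860_nt.UniformSpecialisation
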